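import Pool.Agent.Helper51.NP.Loc

/-!
The choice of a residue class which keeps the full entropy of the classes; one step of the
decomposition of a cell for an arbitrary modulus.
-/

set_option autoImplicit false

namespace Pool.Agent.Helper51.NP

open Finset
open H633R5.FS (N N_nonneg N_le N_ge sum_N_mul Lz Lz_eq g Lz_le g_nonneg g_le Lz_classes card_classes
  exists_class N_split Lz_split Psi Psi_zero_left Psi_zero_right Psi_nonneg Psi_eq Psi_smul
  Psi_tangent Psi_sum Psi_fiber Psi_le_log_two Psi_one Psi_le chan_ge_sq chan_ge_log Psi_le_sqrt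
  Psi_comm)
open scoped Pointwise

section

variable {p : ℕ} [NeZero p]

theorem exists_class_ent (C R : Finset ℤ) (hC : C.Nonempty)
    (hR : R.Nonempty) (ψ : ℤ → ZMod p) (h : ∀ c ∈ C, ∀ r ∈ R, ψ (c + r) = ψ r) (e : ℝ) :
    ∃ κ ∈ R.image ψ, g C (R.filter fun r => ψ r = κ) +
      e * Real.log (R.filter fun r => ψ r = κ).card ≤
        g C R + e * Real.log R.card - e * Hw (dw R ψ) := by
  by_contra hcon
  push Not at hcon
  have h1 : (0 : ℝ) < C.card := by exact_mod_cast hC.card_pos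
  have h2 : (0 : ℝ) < R.card := by exact_mod_cast hR.card_pos
  have key : ∀ S : Finset ℤ, S.Nonempty → (S.card : ℝ) * g C S =
      S.card * Real.log C.card - Lz C S / C.card := by
    intro S hS
    have h3 : (0 : ℝ) < S.card := by exact_mod_cast hS.card_pos
    unfold g
    field_simp
  have hne : ∀ κ ∈ R.image ψ, (R.filter fun r => ψ r = κ).Nonempty := by
    intro κ hκ
    obtain ⟨r, hr, rfl⟩ := Finset.mem_image.1 hκ
    exact ⟨r, Finset.mem_filter.2 ⟨hr, rfl⟩⟩
  have hH : ∑ κ ∈ R.image ψ, ((R.filter fun r => ψ r = κ).card : ℝ) *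
      Real.log (R.filter fun r => ψ r = κ).card =
      R.card * Real.log R.card - R.card * Hw (dw R ψ) := by
    have e1 : Hw (dw R ψ) = ∑ κ ∈ R.image ψ, dw R ψ κ * Real.log (1 / dw R ψ κ) := by
      unfold Hw
      symm
      apply Finset.sum_subset (Finset.subset_univ _)
      intro κ _ hκ
      have : dw R ψ κ = 0 := by
        unfold dw
        rw [div_eq_zero_iff]
        left
        have : R.filter (fun r => ψ r = κ) = ∅ :=
          Finset.filter_eq_empty_iff.2 fun {r} hr hrκ => hκ (Finset.mem_image.2 ⟨r, hr, hrκ⟩)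
        rw [this]; simp
      rw [this, zero_mul]
    rw [e1, Finset.mul_sum]
    have e2 : (R.card : ℝ) * Real.log R.card =
        ∑ κ ∈ R.image ψ, ((R.filter fun r => ψ r = κ).card : ℝ) * Real.log R.card := by
      rw [← Finset.sum_mul, ← card_classes]
    rw [e2, ← Finset.sum_sub_distrib]
    refine Finset.sum_congr rfl fun κ hκ => ?_
    have h3 : (0 : ℝ) < (R.filter fun r => ψ r = κ).card := by
      exact_mod_cast (hne κ hκ).card_pos
    rw [← mul_assoc, card_mul_dw R hR]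
    have : Real.log (1 / dw R ψ κ) = Real.log R.card -
        Real.log (R.filter fun r => ψ r = κ).card := by
      unfold dw
      rw [one_div, Real.log_inv, Real.log_div h3.ne' h2.ne']
      ring
    rw [this]
    ring
  have h4 : (R.card : ℝ) * (g C R + e * Real.log R.card - e * Hw (dw R ψ)) <
      ∑ κ ∈ R.image ψ, ((R.filter fun r => ψ r = κ).card : ℝ) *
        (g C (R.filter fun r => ψ r = κ) + e * Real.log (R.filter fun r => ψ r = κ).card) := by
    rw [card_classes R ψ, Finset.sum_mul, ← card_classes R ψ]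
    refine Finset.sum_lt_sum_of_nonempty (hR.image _) fun κ hκ => ?_
    have h3 : (0 : ℝ) < (R.filter fun r => ψ r = κ).card := by
      exact_mod_cast (hne κ hκ).card_pos
    exact mul_lt_mul_of_pos_left (hcon κ hκ) h3
  have h5 : ∑ κ ∈ R.image ψ, ((R.filter fun r => ψ r = κ).card : ℝ) *
        (g C (R.filter fun r => ψ r = κ) + e * Real.log (R.filter fun r => ψ r = κ).card) =
      ∑ κ ∈ R.image ψ, ((R.filter fun r => ψ r = κ).card : ℝ) *
        g C (R.filter fun r => ψ r = κ) +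
      e * ∑ κ ∈ R.image ψ, ((R.filter fun r => ψ r = κ).card : ℝ) *
        Real.log (R.filter fun r => ψ r = κ).card := by
    rw [Finset.mul_sum, ← Finset.sum_add_distrib]
    refine Finset.sum_congr rfl fun κ _ => ?_
    ring
  rw [h5, hH, Finset.sum_congr rfl fun κ hκ => key _ (hne κ hκ), Finset.sum_sub_distrib,
    ← Finset.sum_mul, ← card_classes, ← Finset.sum_div, ← Lz_classes C R ψ ψ h] at h4
  have h6 := key R hR
  nlinarith

end

/-- the class of `c` modulo `q` after division by `D` -/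
def ps (q D : ℕ) (c : ℤ) : ZMod q := ((c / (D : ℤ) : ℤ) : ZMod q)

theorem stepE (e : ℝ) (q : ℕ) [NeZero q] (D : ℕ) (hD : 0 < D) (C R : Finset ℤ) (hR : R.Nonempty)
    (P : ℤ → Prop) [DecidablePred P] (hdvd : ∀ c ∈ C, (D : ℤ) ∣ c)
    (hzero : ∀ c ∈ C, P c → ps q D c = 0) (hnz : ∀ c ∈ C, ¬ P c → ps q D c ≠ 0)
    (hhi : (C.filter P).Nonempty) (hlo : (C.filter fun c => ¬ P c).Nonempty)
    (x : ℝ) (hx : x = ((C.filter P).card : ℝ) / C.card) :
    ∃ (R' R'' : Finset ℤ) (w : ZMod q → ℝ) (z₀ : ZMod q),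
      R' ⊆ R ∧ R'.Nonempty ∧ R''.Nonempty ∧ g C R' ≤ g C R ∧
      g (C.filter P) R'' + e * Real.log R''.card ≤
        g (C.filter P) R' + e * Real.log R'.card - e * Hw w ∧
      Dist w (dw (C.filter fun c => ¬ P c) (ps q D)) z₀ ∧
      Inf x w (dw (C.filter fun c => ¬ P c) (ps q D)) ≤
        g C R' - x * g (C.filter P) R' - (1 - x) * g (C.filter fun c => ¬ P c) R' := by
  have hC : C.Nonempty := hlo.mono (Finset.filter_subset _ _)
  have : NeZero D := ⟨hD.ne'⟩
  -- first reduction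
  obtain ⟨κ, hκ, hg⟩ := exists_class C R hC hR (fun z => (z : ZMod D))
    (fun z => (z : ZMod D)) (fun c hc r _ => by
      have h1 : ((c : ℤ) : ZMod D) = 0 := by
        rw [ZMod.intCast_zmod_eq_zero_iff_dvd]
        exact hdvd c hc
      push_cast
      rw [h1, zero_add])
  obtain ⟨r₀, hr₀, hr₀κ⟩ := Finset.mem_image.1 hκ
  set R' := R.filter (fun r : ℤ => (r : ZMod D) = κ) with hR'
  have hr₀' : r₀ ∈ R' := Finset.mem_filter.2 ⟨hr₀, hr₀κ⟩
  have hR'ne : R'.Nonempty := ⟨r₀, hr₀'⟩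
  have hdvdR : ∀ r ∈ R', (D : ℤ) ∣ r - r₀ := by
    intro r hr
    have h1 := (Finset.mem_filter.1 hr).2
    have h2 : ((r - r₀ : ℤ) : ZMod D) = 0 := by
      push_cast
      rw [h1, ← hr₀κ, sub_self]
    rw [ZMod.intCast_zmod_eq_zero_iff_dvd] at h2
    exact h2
  set ψR : ℤ → ZMod q := fun r => (((r - r₀) / (D : ℤ) : ℤ) : ZMod q) with hψR
  have hadd : ∀ c ∈ C, ∀ r ∈ R', ψR (c + r) = ps q D c + ψR r := by
    intro c hc r hr
    show (((c + r - r₀) / (D : ℤ) : ℤ) : ZMod q) = ((c / (D : ℤ) : ℤ) : ZMod q) +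
      (((r - r₀) / (D : ℤ) : ℤ) : ZMod q)
    rw [add_sub_assoc, Int.add_ediv_of_dvd_left (hdvd c hc)]
    push_cast
    rfl
  -- the distributions
  obtain ⟨z₀, hz₀⟩ := Finite.exists_max (dw R' ψR)
  have hsub : C.filter P ⊆ C := Finset.filter_subset _ _
  obtain ⟨κ', hκ', hg'⟩ := exists_class_ent (C.filter P) R' hhi hR'ne ψR (fun c hc r hr => by
    rw [hadd c (hsub hc) r hr, hzero c (hsub hc) (Finset.mem_filter.1 hc).2, zero_add]) e
  obtain ⟨r₁, hr₁, hr₁κ⟩ := Finset.mem_image.1 hκ'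
  refine ⟨R', R'.filter (fun r => ψR r = κ'), dw R' ψR, z₀,
    Finset.filter_subset _ _, hR'ne,
    ⟨r₁, Finset.mem_filter.2 ⟨hr₁, hr₁κ⟩⟩, hg, hg', ?_, ?_⟩
  · refine ⟨dw_nonneg _ _, dw_sum _ hR'ne _, dw_nonneg _ _, dw_sum _ hlo _, ?_, hz₀⟩
    unfold dw
    rw [div_eq_zero_iff]
    left
    have : (C.filter fun c => ¬ P c).filter (fun r => ps q D r = 0) = ∅ :=
      Finset.filter_eq_empty_iff.2 fun {c} hc => by
        obtain ⟨h1, h2⟩ := Finset.mem_filter.1 hc
        exact hnz c h1 h2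
    rw [this]
    simp
  · exact g_split C R' hR'ne P hhi hlo (ps q D) ψR ψR hadd hzero x hx

end Pool.Agent.Helper51.NP
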