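import Pool.Agent.H633R5.FS.Sum
import Pool.Agent.H633R5.FS.Num

/-!
The local inequality for an arbitrary modulus (for prime moduli: `H633R5.FS`, `W857.FD`).
-/

set_option autoImplicit false

namespace Pool.Agent.Helper51.NP

open Finset
open H633R5.FS (N N_nonneg N_le N_ge sum_N_mul Lz Lz_eq g Lz_le g_nonneg g_le Lz_classes card_classes
  exists_class N_split Lz_split Psi Psi_zero_left Psi_zero_right Psi_nonneg Psi_eq Psi_smul
  Psi_tangent Psi_sum Psi_fiber Psi_le_log_two Psi_one Psi_le chan_ge_sq chan_ge_log Psi_le_sqrt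
  Psi_comm)
open scoped Pointwise

section

variable {p : ℕ} [NeZero p]

/-- the information -/
noncomputable def Inf (x : ℝ) (w ξ : ZMod p → ℝ) : ℝ :=
  Psi x (1 - x) - ∑ z, Psi (x * w z) ((1 - x) * ∑ c, ξ c * w (z - c))

/-- `w`, `ξ` are distributions on `ZMod p`, `ξ` has no atom at zero, `z₀` is a mode of `w` -/
structure Dist (w ξ : ZMod p → ℝ) (z₀ : ZMod p) : Prop where
  w0 : ∀ z, 0 ≤ w z
  w1 : ∑ z, w z = 1
  x0 : ∀ c, 0 ≤ ξ c
  x1 : ∑ c, ξ c = 1
  xz : ξ 0 = 0
  mo : ∀ z, w z ≤ w z₀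

variable {w ξ : ZMod p → ℝ} {z₀ : ZMod p}

theorem Dist.conv_nonneg (h : Dist w ξ z₀) (z : ZMod p) : 0 ≤ ∑ c, ξ c * w (z - c) :=
  Finset.sum_nonneg fun c _ => mul_nonneg (h.x0 c) (h.w0 _)

theorem Dist.conv_sum (h : Dist w ξ z₀) : ∑ z, ∑ c, ξ c * w (z - c) = 1 := by
  rw [Finset.sum_comm]
  have : ∀ c, ∑ z, ξ c * w (z - c) = ξ c := fun c => by
    rw [← Finset.mul_sum]
    have : ∑ z, w (z - c) = ∑ z, w z :=
      Fintype.sum_equiv (Equiv.subRight c) _ _ fun z => rfl
    rw [this, h.w1, mul_one]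
  rw [Finset.sum_congr rfl fun c _ => this c, h.x1]

theorem Dist.le_one (h : Dist w ξ z₀) (z : ZMod p) : w z ≤ 1 := by
  rw [← h.w1]
  exact Finset.single_le_sum (fun z _ => h.w0 z) (Finset.mem_univ z)

theorem Dist.conv_le_one (h : Dist w ξ z₀) (z : ZMod p) : ∑ c, ξ c * w (z - c) ≤ 1 := by
  rw [← h.conv_sum]
  exact Finset.single_le_sum (f := fun z => ∑ c, ξ c * w (z - c))
    (fun z _ => h.conv_nonneg z) (Finset.mem_univ z)

theorem Dist.pos (h : Dist w ξ z₀) : 0 < w z₀ := by
  by_contra hcon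
  push Not at hcon
  have : ∑ z, w z ≤ 0 := Finset.sum_nonpos fun z _ => (h.mo z).trans hcon
  rw [h.w1] at this
  linarith

/-- the convolution at the mode avoids the mode -/
theorem Dist.conv_mode (h : Dist w ξ z₀) : ∑ c, ξ c * w (z₀ - c) ≤ 1 - w z₀ := by
  have h1 : ∀ c, ξ c * w (z₀ - c) ≤ ξ c * (1 - w z₀) := by
    intro c
    by_cases hc : c = 0
    · rw [hc, h.xz]; simp
    · refine mul_le_mul_of_nonneg_left ?_ (h.x0 c)
      have hne : z₀ - c ≠ z₀ := fun h' => hc (by simpa using h')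
      have h2 : w (z₀ - c) + w z₀ ≤ ∑ z, w z := by
        rw [← Finset.sum_pair hne]
        exact Finset.sum_le_univ_sum_of_nonneg h.w0
      rw [h.w1] at h2
      linarith
  calc ∑ c, ξ c * w (z₀ - c) ≤ ∑ c, ξ c * (1 - w z₀) := Finset.sum_le_sum fun c _ => h1 c
    _ = 1 - w z₀ := by rw [← Finset.sum_mul, h.x1, one_mul]

theorem Inf_ge_chan (h : Dist w ξ z₀) {x : ℝ} (hx : 0 ≤ x) (hx1 : x ≤ 1) (z : ZMod p) :
    Psi x (1 - x) - Psi (x * w z) ((1 - x) * ∑ c, ξ c * w (z - c)) -
      Psi (x * (1 - w z)) ((1 - x) * (1 - ∑ c, ξ c * w (z - c))) ≤ Inf x w ξ := by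
  classical
  unfold Inf
  have h1 : ∑ z', Psi (x * w z') ((1 - x) * ∑ c, ξ c * w (z' - c)) =
      Psi (x * w z) ((1 - x) * ∑ c, ξ c * w (z - c)) +
      ∑ z' ∈ Finset.univ.erase z, Psi (x * w z') ((1 - x) * ∑ c, ξ c * w (z' - c)) :=
    (Finset.add_sum_erase _ _ (Finset.mem_univ z)).symm
  have h2 := Psi_sum (Finset.univ.erase z) (fun z' => x * w z')
    (fun z' => (1 - x) * ∑ c, ξ c * w (z' - c)) (fun z' _ => mul_nonneg hx (h.w0 z'))
    (fun z' _ => mul_nonneg (by linarith) (h.conv_nonneg z'))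
  have e1 : ∑ z' ∈ Finset.univ.erase z, x * w z' = x * (1 - w z) := by
    rw [← Finset.mul_sum, ← h.w1, ← Finset.add_sum_erase _ _ (Finset.mem_univ z)]
    ring
  have e2 : ∑ z' ∈ Finset.univ.erase z, (1 - x) * ∑ c, ξ c * w (z' - c) =
      (1 - x) * (1 - ∑ c, ξ c * w (z - c)) := by
    rw [← Finset.mul_sum]
    have := h.conv_sum
    rw [← Finset.add_sum_erase _ _ (Finset.mem_univ z)] at this
    rw [← this]
    ring
  rw [e1, e2] at h2
  rw [h1]
  linarith

theorem Inf_nonneg (h : Dist w ξ z₀) {x : ℝ} (hx : 0 ≤ x) (hx1 : x ≤ 1) : 0 ≤ Inf x w ξ := by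
  unfold Inf
  have h2 := Psi_sum Finset.univ (fun z' => x * w z')
    (fun z' => (1 - x) * ∑ c, ξ c * w (z' - c)) (fun z' _ => mul_nonneg hx (h.w0 z'))
    (fun z' _ => mul_nonneg (by linarith) (h.conv_nonneg z'))
  rw [← Finset.mul_sum, ← Finset.mul_sum, h.w1, h.conv_sum, mul_one, mul_one] at h2
  linarith

/-- the distribution of `R` -/
noncomputable def dw (R : Finset ℤ) (ψ : ℤ → ZMod p) (b : ZMod p) : ℝ :=
  ((R.filter fun r => ψ r = b).card : ℝ) / R.card

theorem dw_nonneg (R : Finset ℤ) (ψ : ℤ → ZMod p) (b : ZMod p) : 0 ≤ dw R ψ b := by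
  unfold dw; positivity

theorem dw_sum (R : Finset ℤ) (hR : R.Nonempty) (ψ : ℤ → ZMod p) : ∑ b, dw R ψ b = 1 := by
  have h2 : (0 : ℝ) < R.card := by exact_mod_cast hR.card_pos
  unfold dw
  rw [← Finset.sum_div, div_eq_one_iff_eq h2.ne']
  have := Finset.card_eq_sum_card_fiberwise (f := ψ) (s := R) (t := Finset.univ)
    (fun _ _ => Finset.mem_coe.2 (Finset.mem_univ _))
  rw [this]
  push_cast
  rfl

theorem card_mul_dw (R : Finset ℤ) (hR : R.Nonempty) (ψ : ℤ → ZMod p) (b : ZMod p) :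
    (R.card : ℝ) * dw R ψ b = (R.filter fun r => ψ r = b).card := by
  have h2 : (0 : ℝ) < R.card := by exact_mod_cast hR.card_pos
  unfold dw
  field_simp

theorem sum_indicator (D R Z : Finset ℤ) (hZ : ∀ c ∈ D, ∀ r ∈ R, c + r ∈ Z)
    (ψC ψR φ : ℤ → ZMod p) (h : ∀ c ∈ D, ∀ r ∈ R, φ (c + r) = ψC c + ψR r) (b : ZMod p) :
    ∑ z ∈ Z, (if φ z = b then N D R z else 0) =
      ∑ c ∈ D, ((R.filter fun r => ψR r = b - ψC c).card : ℝ) := by
  have h1 : ∀ z ∈ Z, (if φ z = b then N D R z else 0) =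
      N D R z * (if φ z = b then 1 else 0) := fun z _ => by split_ifs <;> simp
  rw [Finset.sum_congr rfl h1, sum_N_mul D R Z hZ]
  refine Finset.sum_congr rfl fun c hc => ?_
  rw [Finset.card_filter]
  push_cast
  refine Finset.sum_congr rfl fun r hr => ?_
  rw [h c hc r hr]
  congr 1
  apply propext
  constructor
  · intro h1; rw [← h1]; ring
  · intro h1; rw [h1]; ring

theorem g_split (C R : Finset ℤ) (hR : R.Nonempty) (P : ℤ → Prop)
    [DecidablePred P] (h0 : (C.filter P).Nonempty) (h1 : (C.filter fun c => ¬ P c).Nonempty)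
    (ψC ψR φ : ℤ → ZMod p) (h : ∀ c ∈ C, ∀ r ∈ R, φ (c + r) = ψC c + ψR r)
    (hP : ∀ c ∈ C, P c → ψC c = 0) (x : ℝ) (hx : x = ((C.filter P).card : ℝ) / C.card) :
    Inf x (dw R ψR) (dw (C.filter fun c => ¬ P c) ψC) ≤
      g C R - x * g (C.filter P) R - (1 - x) * g (C.filter fun c => ¬ P c) R := by
  have hcard : ((C.filter P).card : ℝ) + (C.filter fun c => ¬ P c).card = C.card := by
    exact_mod_cast Finset.card_filter_add_card_filter_not (s := C) P
  set C0 := C.filter P with hC0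
  set C1 := C.filter (fun c => ¬ P c) with hC1
  have c0 : (0 : ℝ) < C0.card := by exact_mod_cast h0.card_pos
  have c1 : (0 : ℝ) < C1.card := by exact_mod_cast h1.card_pos
  have cC : (0 : ℝ) < C.card := by linarith
  have cR : (0 : ℝ) < R.card := by exact_mod_cast hR.card_pos
  have hx' : 1 - x = (C1.card : ℝ) / C.card := by
    rw [hx]
    field_simp
    linarith
  -- the identity
  have id1 : g C R - x * g C0 R - (1 - x) * g C1 R = Psi x (1 - x) -
      (∑ z ∈ C + R, Psi (N C0 R z) (N C1 R z)) / (C.card * R.card) := by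
    have e0 : x * g C0 R = x * Real.log C0.card - Lz C0 R / (C.card * R.card) := by
      unfold g; rw [hx]; field_simp
    have e1 : (1 - x) * g C1 R = (1 - x) * Real.log C1.card - Lz C1 R / (C.card * R.card) := by
      unfold g; rw [hx']; field_simp
    have e2 : Psi x (1 - x) = Real.log C.card - x * Real.log C0.card -
        (1 - x) * Real.log C1.card := by
      rw [Psi_one]
      have f0 : Real.log (1 / x) = Real.log C.card - Real.log C0.card := by
        rw [hx, one_div, Real.log_inv, Real.log_div c0.ne' cC.ne']; ring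
      have f1 : Real.log (1 / (1 - x)) = Real.log C.card - Real.log C1.card := by
        rw [hx', one_div, Real.log_inv, Real.log_div c1.ne' cC.ne']; ring
      rw [f0, f1]
      ring
    rw [e0, e1, e2]
    unfold g
    rw [Lz_split C R P, ← hC0, ← hC1]
    ring
  rw [id1]
  unfold Inf
  have hZ0 : ∀ c ∈ C0, ∀ r ∈ R, c + r ∈ C + R := fun c hc r hr =>
    Finset.add_mem_add (Finset.mem_filter.1 hc).1 hr
  have hZ1 : ∀ c ∈ C1, ∀ r ∈ R, c + r ∈ C + R := fun c hc r hr =>
    Finset.add_mem_add (Finset.mem_filter.1 hc).1 hr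
  have h2 := Psi_fiber (C + R) φ (fun z => N C0 R z) (fun z => N C1 R z)
    (fun z _ => N_nonneg _ _ _) (fun z _ => N_nonneg _ _ _)
  have h3 : ∀ b : ZMod p, ∑ z ∈ C + R, (if φ z = b then N C0 R z else 0) =
      (C.card * R.card : ℝ) * (x * dw R ψR b) := by
    intro b
    rw [sum_indicator C0 R (C + R) hZ0 ψC ψR φ
      (fun c hc r hr => h c (Finset.mem_filter.1 hc).1 r hr) b]
    have : ∀ c ∈ C0, ((R.filter fun r => ψR r = b - ψC c).card : ℝ) = R.card * dw R ψR b := by
      intro c hc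
      rw [hP c (Finset.mem_filter.1 hc).1 (Finset.mem_filter.1 hc).2, sub_zero,
        card_mul_dw R hR]
    rw [Finset.sum_congr rfl this, Finset.sum_const, nsmul_eq_mul, hx]
    field_simp
  have h4 : ∀ b : ZMod p, ∑ z ∈ C + R, (if φ z = b then N C1 R z else 0) =
      (C.card * R.card : ℝ) * ((1 - x) * ∑ c, dw C1 ψC c * dw R ψR (b - c)) := by
    intro b
    rw [sum_indicator C1 R (C + R) hZ1 ψC ψR φ
      (fun c hc r hr => h c (Finset.mem_filter.1 hc).1 r hr) b]
    rw [← Finset.sum_fiberwise C1 ψC]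
    have : ∀ a : ZMod p, ∑ c ∈ C1.filter (fun c => ψC c = a),
        ((R.filter fun r => ψR r = b - ψC c).card : ℝ) =
        (C1.card * R.card : ℝ) * (dw C1 ψC a * dw R ψR (b - a)) := by
      intro a
      have h5 : ∀ c ∈ C1.filter (fun c => ψC c = a),
          ((R.filter fun r => ψR r = b - ψC c).card : ℝ) = R.card * dw R ψR (b - a) := by
        intro c hc
        rw [(Finset.mem_filter.1 hc).2, card_mul_dw R hR]
      rw [Finset.sum_congr rfl h5, Finset.sum_const, nsmul_eq_mul, ← card_mul_dw C1 h1 ψC a]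
      ring
    rw [Finset.sum_congr rfl fun a _ => this a, ← Finset.mul_sum, hx']
    field_simp
  simp only [h3, h4, Psi_smul] at h2
  rw [← Finset.mul_sum] at h2
  have h5 : (∑ z ∈ C + R, Psi (N C0 R z) (N C1 R z)) / (C.card * R.card) ≤
      ∑ b : ZMod p, Psi (x * dw R ψR b) ((1 - x) * ∑ c, dw C1 ψC c * dw R ψR (b - c)) := by
    rw [div_le_iff₀ (by positivity)]
    linarith
  linarith

/-- entropy -/
noncomputable def Hw (w : ZMod p → ℝ) : ℝ := ∑ z, w z * Real.log (1 / w z)

theorem log_inv_ge {u : ℝ} (hu : 0 < u) : 1 - u ≤ Real.log (1 / u) := by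
  have h1 := Real.log_le_sub_one_of_pos hu
  rw [one_div, Real.log_inv]
  linarith

theorem term_nonneg (h : Dist w ξ z₀) (z : ZMod p) : 0 ≤ w z * Real.log (1 / w z) := by
  rcases (h.w0 z).eq_or_lt with h0 | h0
  · rw [← h0]; simp
  · exact mul_nonneg h0.le (by linarith [log_inv_ge h0, h.le_one z])

theorem Hw_ge (h : Dist w ξ z₀) : 1 - w z₀ ≤ Hw w := by
  unfold Hw
  have h1 : ∀ z, w z * (1 - w z₀) ≤ w z * Real.log (1 / w z) := by
    intro z
    rcases (h.w0 z).eq_or_lt with h0 | h0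
    · rw [← h0]; simp
    · exact mul_le_mul_of_nonneg_left (by linarith [log_inv_ge h0, h.mo z]) h0.le
  calc 1 - w z₀ = ∑ z, w z * (1 - w z₀) := by rw [← Finset.sum_mul, h.w1, one_mul]
    _ ≤ _ := Finset.sum_le_sum fun z _ => h1 z

theorem Hw_nonneg (h : Dist w ξ z₀) : 0 ≤ Hw w :=
  Finset.sum_nonneg fun z _ => term_nonneg h z

end

theorem Psi_ge_mul {x : ℝ} (hx : 0 < x) (hx1 : x < 1) : x * (1 - x) ≤ Psi x (1 - x) := by
  rw [Psi_one]
  have h1 := mul_le_mul_of_nonneg_left (log_inv_ge hx) hx.le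
  have h2 : 0 ≤ (1 - x) * Real.log (1 / (1 - x)) :=
    mul_nonneg (by linarith) (by linarith [log_inv_ge (by linarith : 0 < 1 - x)])
  linarith

theorem near (a e : ℝ) (ha1 : a < 1) (he : 0 < e) :
    ∃ y₀ : ℝ, 0 < y₀ ∧ y₀ ≤ 1 / 4 ∧ ∀ (p : ℕ) [NeZero p] (w ξ : ZMod p → ℝ) (z₀ : ZMod p),
      Dist w ξ z₀ → ∀ x : ℝ, 1 - y₀ ≤ x → x < 1 →
        a * Psi x (1 - x) ≤ Inf x w ξ + e * x * Hw w := by
  set s₀ : ℝ := (1 - a) / 2 with hs₀
  have hs₀0 : 0 < s₀ := by rw [hs₀]; linarith
  set u : ℝ := min (1 / 2) (e * s₀ / 4) with hu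
  have hu0 : 0 < u := lt_min (by norm_num) (by positivity)
  have hu1 : u ≤ 1 / 2 := min_le_left _ _
  have hu2 : u ≤ e * s₀ / 4 := min_le_right _ _
  set Λ : ℝ := (2 + s₀ + Real.log ((1 + e) / e)) / s₀ with hΛ
  refine ⟨min (Real.exp (-Λ)) (u ^ 2), lt_min (Real.exp_pos _) (by positivity),
    (min_le_right _ _).trans (by nlinarith), ?_⟩
  intro p _ w ξ z₀ h x hx hx1
  set y : ℝ := 1 - x with hy
  have hy0 : 0 < y := by linarith
  have hyu : y ≤ u ^ 2 := by
    have := min_le_right (Real.exp (-Λ)) (u ^ 2)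
    linarith
  have hyΛ : y ≤ Real.exp (-Λ) := by
    have := min_le_left (Real.exp (-Λ)) (u ^ 2)
    linarith
  have hy4 : y ≤ 1 / 4 := hyu.trans (by nlinarith)
  have hx0 : 0 < x := by linarith
  have hI := Inf_nonneg h (x := x) hx0.le hx1.le
  have hH := Hw_ge h
  have hw := h.pos
  have hw1 := h.le_one z₀
  set s : ℝ := 1 - w z₀ with hs
  have hs0 : 0 ≤ s := by linarith
  have hΨ0 : 0 ≤ Psi x y := Psi_nonneg hx0.le hy0.le
  by_cases hcase : s₀ ≤ s
  · have h1 : Psi x y ≤ 2 * u := by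
      have := Psi_le_sqrt hy0 hu0 hu1 hyu
      rw [show 1 - y = x by rw [hy]; ring] at this
      rw [Psi_comm]
      exact this
    have h2 : e * (1 / 2) * s₀ ≤ e * x * Hw w :=
      mul_le_mul (mul_le_mul_of_nonneg_left (by linarith) he.le) (hcase.trans hH) hs₀0.le
        (by positivity)
    have h3 : a * Psi x y ≤ 1 * Psi x y := mul_le_mul_of_nonneg_right ha1.le hΨ0
    linarith
  · push Not at hcase
    have hch := Inf_ge_chan h hx0.le hx1.le z₀
    rw [← hy] at hch
    set q : ℝ := ∑ c, ξ c * w (z₀ - c) with hq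
    have hq0 : 0 ≤ q := h.conv_nonneg z₀
    have hqs : q ≤ s := h.conv_mode
    have hq1 : q ≤ 1 := h.conv_le_one z₀
    have t1 := Psi_tangent (u := x * w z₀) (v := y * q) (by positivity) (by positivity)
      (one_pos) hy0
    have t2 := Psi_tangent (u := x * (1 - w z₀)) (v := y * (1 - q))
      (mul_nonneg hx0.le (by linarith)) (mul_nonneg hy0.le (by linarith)) one_pos he
    set L : ℝ := Real.log (1 / y) with hL
    have hLΛ : Λ ≤ L := by
      rw [hL, one_div, Real.log_inv]
      have : Real.log y ≤ -Λ := by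
        rw [Real.log_le_iff_le_exp hy0]; exact hyΛ
      linarith
    have l1 : Real.log ((1 + y) / 1) ≤ y := by
      have := Real.log_le_sub_one_of_pos (by linarith : 0 < (1 + y) / 1)
      linarith
    have l2 : Real.log ((1 + y) / y) ≤ 1 + L := by
      rw [Real.log_div (by linarith) hy0.ne', hL, one_div, Real.log_inv]
      have := Real.log_le_sub_one_of_pos (by linarith : 0 < 1 + y)
      linarith
    have l3 : Real.log ((1 + e) / 1) ≤ e := by
      have := Real.log_le_sub_one_of_pos (by linarith : 0 < (1 + e) / 1)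
      linarith
    have l4 : 0 ≤ Real.log ((1 + e) / e) := by
      apply Real.log_nonneg
      rw [le_div_iff₀ he]; linarith
    have hL0 : 0 ≤ L := le_trans (by positivity) hLΛ
    have a1 : x * w z₀ * Real.log ((1 + y) / 1) ≤ 1 * y := by
      have h1 : 0 ≤ Real.log ((1 + y) / 1) := Real.log_nonneg (by linarith)
      exact mul_le_mul (by nlinarith) l1 h1 (by norm_num)
    have a2 : y * q * Real.log ((1 + y) / y) ≤ y * s₀ * (1 + L) := by
      have h1 : 0 ≤ Real.log ((1 + y) / y) := by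
        apply Real.log_nonneg
        rw [le_div_iff₀ hy0]; linarith
      exact mul_le_mul (mul_le_mul_of_nonneg_left (by linarith) hy0.le) l2 h1 (by positivity)
    have a3 : x * (1 - w z₀) * Real.log ((1 + e) / 1) ≤ x * s * e :=
      mul_le_mul_of_nonneg_left l3 (mul_nonneg hx0.le hs0)
    have a4 : y * (1 - q) * Real.log ((1 + e) / e) ≤ y * 1 * Real.log ((1 + e) / e) :=
      mul_le_mul_of_nonneg_right (mul_le_mul_of_nonneg_left (by linarith) hy0.le) l4
    have a5 : e * x * s ≤ e * x * Hw w := mul_le_mul_of_nonneg_left hH (by positivity)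
    have a6 : y * L ≤ Psi x y := by
      rw [hy, Psi_one, ← hy]
      have : 0 ≤ x * Real.log (1 / x) :=
        mul_nonneg hx0.le (by linarith [log_inv_ge hx0])
      linarith
    have a7 : s₀ * Λ = 2 + s₀ + Real.log ((1 + e) / e) := by
      rw [hΛ]; field_simp
    have a8 : s₀ * Λ ≤ s₀ * L := mul_le_mul_of_nonneg_left hLΛ hs₀0.le
    have a9 : (1 - a) * (y * L) ≤ (1 - a) * Psi x y :=
      mul_le_mul_of_nonneg_left a6 (by linarith)
    have a10 : 1 - a = 2 * s₀ := by rw [hs₀]; ring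
    have a11 : y * (2 + s₀ + Real.log ((1 + e) / e)) ≤ y * (s₀ * L) :=
      mul_le_mul_of_nonneg_left (by linarith) hy0.le
    rw [a10] at a9
    have a12 : a * Psi x y = Psi x y - 2 * s₀ * Psi x y := by
      have : a = 1 - 2 * s₀ := by linarith
      rw [this]; ring
    rw [a12]
    nlinarith

theorem middle (a e xg y₀ : ℝ) (ha1 : a < 1) (he : 0 < e) (hxg : 0 < xg) (hy₀ : 0 < y₀) :
    ∃ τ β : ℝ, 0 < τ ∧ 0 < β ∧ ∀ (p : ℕ) [NeZero p] (w ξ : ZMod p → ℝ) (z₀ : ZMod p),
      Dist w ξ z₀ → ∀ x : ℝ, xg ≤ x → x ≤ 1 - y₀ →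
        ∑ c, (if τ ≤ ξ c then ξ c else 0) < β →
        a * Psi x (1 - x) ≤ Inf x w ξ + e * x * Hw w := by
  set m : ℝ := (1 - a) * (xg * y₀) with hm
  have hm0 : 0 < m := mul_pos (by linarith) (by positivity)
  set r : ℝ := m / 4 with hr
  have hr0 : 0 < r := by positivity
  set l : ℝ := Real.log ((1 + r) / r) with hl
  have hl0 : 0 < l := by
    apply Real.log_pos
    rw [lt_div_iff₀ hr0]; linarith
  set θ : ℝ := Real.exp (-(l / e)) with hθ
  have hθ0 : 0 < θ := Real.exp_pos _
  refine ⟨θ * (r / l), r / l, by positivity, by positivity, ?_⟩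
  intro p _ w ξ z₀ h x hx hx1 hmass
  set τ : ℝ := θ * (r / l) with hτ
  have hτ0 : 0 < τ := by positivity
  set y : ℝ := 1 - x with hy
  have hy0 : 0 < y := by linarith
  have hx0 : 0 < x := by linarith
  have hx1' : x < 1 := by linarith
  set q : ZMod p → ℝ := fun z => ∑ c, ξ c * w (z - c) with hq
  have hq0 : ∀ z, 0 ≤ q z := fun z => h.conv_nonneg z
  have hΨ : m ≤ (1 - a) * Psi x y := by
    have h1 := Psi_ge_mul hx0 hx1'
    rw [hm]
    refine mul_le_mul_of_nonneg_left (le_trans ?_ h1) (by linarith)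
    exact mul_le_mul hx (by linarith) hy₀.le hx0.le
  set Z : Finset (ZMod p) := Finset.univ.filter (fun z => θ ≤ w z) with hZ
  have hsum1 : ∀ c : ZMod p, ∑ z, w (z - c) = 1 := fun c => by
    rw [← h.w1]
    exact Fintype.sum_equiv (Equiv.subRight c) _ _ fun z => rfl
  have hsum2 : ∀ z : ZMod p, ∑ c, w (z - c) = 1 := fun z => by
    rw [← h.w1]
    exact Fintype.sum_equiv (Equiv.subLeft z) _ _ fun z => rfl
  have hZcard : θ * Z.card ≤ 1 := by
    have h1 : ∑ z ∈ Z, θ ≤ ∑ z ∈ Z, w z :=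
      Finset.sum_le_sum fun z hz => (Finset.mem_filter.1 hz).2
    rw [Finset.sum_const, nsmul_eq_mul] at h1
    have h2 : ∑ z ∈ Z, w z ≤ ∑ z, w z :=
      Finset.sum_le_univ_sum_of_nonneg h.w0
    rw [h.w1] at h2
    linarith
  -- the mass of the convolution on `Z`
  have hqZ : ∑ z ∈ Z, q z ≤ 2 * (r / l) := by
    have h1 : ∀ z, q z ≤ ∑ c, (if τ ≤ ξ c then ξ c else 0) * w (z - c) + τ := by
      intro z
      have h2 : ∀ c, ξ c * w (z - c) ≤ (if τ ≤ ξ c then ξ c else 0) * w (z - c) +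
          τ * w (z - c) := by
        intro c
        split_ifs with hc
        · have := mul_nonneg hτ0.le (h.w0 (z - c))
          linarith
        · push Not at hc
          have := mul_le_mul_of_nonneg_right hc.le (h.w0 (z - c))
          linarith
      calc q z ≤ ∑ c, ((if τ ≤ ξ c then ξ c else 0) * w (z - c) + τ * w (z - c)) :=
            Finset.sum_le_sum fun c _ => h2 c
        _ = _ := by rw [Finset.sum_add_distrib, ← Finset.mul_sum, hsum2, mul_one]
    calc ∑ z ∈ Z, q z ≤ ∑ z ∈ Z, (∑ c, (if τ ≤ ξ c then ξ c else 0) * w (z - c) + τ) :=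
          Finset.sum_le_sum fun z _ => h1 z
      _ = ∑ z ∈ Z, ∑ c, (if τ ≤ ξ c then ξ c else 0) * w (z - c) + Z.card * τ := by
          rw [Finset.sum_add_distrib, Finset.sum_const, nsmul_eq_mul]
      _ ≤ ∑ z, ∑ c, (if τ ≤ ξ c then ξ c else 0) * w (z - c) + Z.card * τ := by
          refine add_le_add_left (Finset.sum_le_univ_sum_of_nonneg fun z => ?_) _
          refine Finset.sum_nonneg fun c _ => mul_nonneg ?_ (h.w0 _)
          split_ifs
          · exact h.x0 c
          · exact le_rfl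
      _ = ∑ c, (if τ ≤ ξ c then ξ c else 0) + Z.card * τ := by
          rw [Finset.sum_comm]
          congr 1
          refine Finset.sum_congr rfl fun c _ => ?_
          rw [← Finset.mul_sum, hsum1, mul_one]
      _ ≤ r / l + r / l := by
          refine add_le_add hmass.le ?_
          rw [hτ]
          have : (Z.card : ℝ) * (θ * (r / l)) = θ * Z.card * (r / l) := by ring
          rw [this]
          have := mul_le_mul_of_nonneg_right hZcard (by positivity : 0 ≤ r / l)
          linarith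
      _ = 2 * (r / l) := by ring
  have hlr : Real.log (1 + r) ≤ r := by
    have := Real.log_le_sub_one_of_pos (by linarith : 0 < 1 + r)
    linarith
  have hlr0 : 0 ≤ Real.log (1 + r) := Real.log_nonneg (by linarith)
  -- the sum
  have hin : ∀ z ∈ Z, Psi (x * w z) (y * q z) ≤ r * w z + l * q z +
      e * x * (w z * Real.log (1 / w z)) := by
    intro z _
    have h1 := Psi_tangent (u := x * w z) (v := y * q z) (mul_nonneg hx0.le (h.w0 z))
      (mul_nonneg hy0.le (hq0 z)) one_pos hr0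
    rw [div_one, ← hl] at h1
    have h2 : x * w z * Real.log (1 + r) ≤ 1 * w z * r :=
      mul_le_mul (mul_le_mul_of_nonneg_right hx1'.le (h.w0 z)) hlr hlr0
        (mul_nonneg zero_le_one (h.w0 z))
    have h3 : y * q z * l ≤ 1 * q z * l :=
      mul_le_mul_of_nonneg_right (mul_le_mul_of_nonneg_right (by linarith) (hq0 z)) hl0.le
    have h4 : 0 ≤ e * x * (w z * Real.log (1 / w z)) :=
      mul_nonneg (by positivity) (term_nonneg h z)
    linarith
  have hout : ∀ z, z ∉ Z → Psi (x * w z) (y * q z) ≤ r * q z +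
      e * x * (w z * Real.log (1 / w z)) := by
    intro z hz
    have hz' : w z < θ := by
      by_contra hcon
      push Not at hcon
      exact hz (Finset.mem_filter.2 ⟨Finset.mem_univ _, hcon⟩)
    have h1 := Psi_tangent (u := x * w z) (v := y * q z) (mul_nonneg hx0.le (h.w0 z))
      (mul_nonneg hy0.le (hq0 z)) hr0 one_pos
    rw [div_one, add_comm r 1, ← hl] at h1
    have h2 : y * q z * Real.log (1 + r) ≤ 1 * q z * r :=
      mul_le_mul (mul_le_mul_of_nonneg_right (by linarith) (hq0 z)) hlr hlr0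
        (mul_nonneg zero_le_one (hq0 z))
    have h3 : x * w z * l ≤ e * x * (w z * Real.log (1 / w z)) := by
      rcases (h.w0 z).eq_or_lt with h0 | h0
      · rw [← h0]; simp
      · have h4 : l / e ≤ Real.log (1 / w z) := by
          rw [one_div, Real.log_inv]
          have : Real.log (w z) ≤ -(l / e) := by
            rw [Real.log_le_iff_le_exp h0]; exact hz'.le
          linarith
        have h5 : l ≤ e * Real.log (1 / w z) := by
          rw [div_le_iff₀ he] at h4; linarith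
        have h6 := mul_le_mul_of_nonneg_left h5 (by positivity : 0 ≤ x * w z)
        linarith
    linarith
  have hall : ∑ z, Psi (x * w z) (y * q z) ≤ 4 * r + e * x * Hw w := by
    have h1 : ∑ z, Psi (x * w z) (y * q z) ≤
        ∑ z, ((r * w z + r * q z + e * x * (w z * Real.log (1 / w z))) +
          if z ∈ Z then l * q z else 0) := by
      refine Finset.sum_le_sum fun z _ => ?_
      have hw := mul_nonneg hr0.le (h.w0 z)
      have hq' := mul_nonneg hr0.le (hq0 z)
      split_ifs with hz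
      · linarith [hin z hz]
      · linarith [hout z hz]
    have h2 : ∑ z, q z = 1 := h.conv_sum
    rw [Finset.sum_add_distrib, Finset.sum_add_distrib, Finset.sum_add_distrib,
      ← Finset.mul_sum, ← Finset.mul_sum, ← Finset.mul_sum, h.w1, h2, Finset.sum_ite_mem,
      Finset.univ_inter, ← Finset.mul_sum] at h1
    have h3 : l * ∑ z ∈ Z, q z ≤ l * (2 * (r / l)) := mul_le_mul_of_nonneg_left hqZ hl0.le
    have h4 : l * (2 * (r / l)) = 2 * r := by field_simp
    unfold Hw
    linarith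
  have h1 : Inf x w ξ = Psi x y - ∑ z, Psi (x * w z) (y * q z) := rfl
  rw [h1]
  have h2 : 4 * r = m := by rw [hr]; ring
  have h3 : (1 - a) * Psi x y = Psi x y - a * Psi x y := by ring
  linarith

end Pool.Agent.Helper51.NP
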