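import Pool.Agent.H633R5.FS.Sum

/-!
The entropy gain of a mixture and of a dilate.
-/

set_option autoImplicit false

namespace Pool.Agent.Helper51.NP

open Finset
open H633R5.FS (N N_nonneg N_le N_ge sum_N_mul Lz Lz_eq g Lz_le g_nonneg g_le Lz_classes card_classes
  exists_class)
open scoped Pointwise

theorem N_mono {C C' R : Finset ℤ} (h : C ⊆ C') (z : ℤ) : N C R z ≤ N C' R z := by
  unfold N
  exact Finset.sum_le_sum_of_subset_of_nonneg h fun c _ _ => by split_ifs <;> norm_num

/-- the entropy gain is at least the mean of the entropy gains of the classes -/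
theorem g_mix {α : Type*} [DecidableEq α] (A B : Finset ℤ) (f : ℤ → α) (hA : A.Nonempty)
    (hB : B.Nonempty) :
    ∑ t ∈ A.image f, ((A.filter fun a => f a = t).card : ℝ) * g (A.filter fun a => f a = t) B ≤
      A.card * g A B := by
  have cA : (0 : ℝ) < A.card := by exact_mod_cast hA.card_pos
  have cB : (0 : ℝ) < B.card := by exact_mod_cast hB.card_pos
  have hne : ∀ t ∈ A.image f, (A.filter fun a => f a = t).Nonempty := by
    intro t ht
    obtain ⟨a, ha, rfl⟩ := mem_image.1 ht
    exact ⟨a, mem_filter.2 ⟨ha, rfl⟩⟩
  have key : ∀ S : Finset ℤ, S.Nonempty → (S.card : ℝ) * g S B =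
      S.card * Real.log S.card - Lz S B / B.card := by
    intro S hS
    have h3 : (0 : ℝ) < S.card := by exact_mod_cast hS.card_pos
    unfold g
    field_simp
  rw [key A hA, Finset.sum_congr rfl fun t ht => key _ (hne t ht), Finset.sum_sub_distrib,
    ← Finset.sum_div]
  have hcard : (A.card : ℝ) = ∑ t ∈ A.image f, ((A.filter fun a => f a = t).card : ℝ) := by
    rw [Finset.card_eq_sum_card_image f A]
    push_cast
    rfl
  have hLz : Lz A B = ∑ t ∈ A.image f, ∑ c ∈ A.filter (fun a => f a = t), ∑ r ∈ B,
      Real.log (N A B (c + r)) := by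
    unfold Lz
    exact (Finset.sum_fiberwise_of_maps_to (fun a ha => mem_image_of_mem f ha) _).symm
  have hgibbs : ∀ t ∈ A.image f, ∑ c ∈ A.filter (fun a => f a = t), ∑ r ∈ B,
      Real.log (N A B (c + r)) - Lz (A.filter fun a => f a = t) B ≤
      ((A.filter fun a => f a = t).card : ℝ) * B.card *
        (Real.log A.card - Real.log (A.filter fun a => f a = t).card) +
      (((A.filter fun a => f a = t).card : ℝ) / A.card * (A.card * B.card) -
        (A.filter fun a => f a = t).card * B.card) := by
    intro t ht
    set S := A.filter (fun a => f a = t) with hS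
    have cS : (0 : ℝ) < S.card := by exact_mod_cast (hne t ht).card_pos
    have h1 : ∀ c ∈ S, ∀ r ∈ B, Real.log (N A B (c + r)) - Real.log (N S B (c + r)) ≤
        (Real.log A.card - Real.log S.card) +
          ((S.card : ℝ) / A.card * (N A B (c + r) / N S B (c + r)) - 1) := by
      intro c hc r hr
      have hN : 0 < N S B (c + r) := by linarith [N_ge hc hr]
      have hN' : 0 < N A B (c + r) := by linarith [N_ge (Finset.filter_subset _ _ hc) hr]
      have h2 := Real.log_le_sub_one_of_pos
        (show 0 < (S.card : ℝ) / A.card * (N A B (c + r) / N S B (c + r)) by positivity)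
      rw [Real.log_mul (by positivity) (by positivity), Real.log_div cS.ne' cA.ne',
        Real.log_div hN'.ne' hN.ne'] at h2
      linarith
    have h2 : ∑ c ∈ S, ∑ r ∈ B, (Real.log (N A B (c + r)) - Real.log (N S B (c + r))) ≤
        ∑ c ∈ S, ∑ r ∈ B, ((Real.log A.card - Real.log S.card) +
          ((S.card : ℝ) / A.card * (N A B (c + r) / N S B (c + r)) - 1)) :=
      Finset.sum_le_sum fun c hc => Finset.sum_le_sum fun r hr => h1 c hc r hr
    have h3 : ∑ c ∈ S, ∑ r ∈ B, N A B (c + r) / N S B (c + r) ≤ A.card * B.card := by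
      have e1 := sum_N_mul S B (S + B) (fun c hc r hr => Finset.add_mem_add hc hr)
        (fun z => N A B z / N S B z)
      rw [← e1]
      have e2 : ∑ z ∈ S + B, N S B z * (N A B z / N S B z) ≤ ∑ z ∈ A + B, N A B z := by
        calc ∑ z ∈ S + B, N S B z * (N A B z / N S B z) = ∑ z ∈ S + B, N A B z := by
              refine Finset.sum_congr rfl fun z hz => ?_
              obtain ⟨c, hc, r, hr, rfl⟩ := Finset.mem_add.1 hz
              have hN : 0 < N S B (c + r) := by linarith [N_ge hc hr]
              field_simp
          _ ≤ ∑ z ∈ A + B, N A B z :=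
              Finset.sum_le_sum_of_subset_of_nonneg
                (Finset.add_subset_add_right (Finset.filter_subset _ _))
                fun z _ _ => N_nonneg _ _ _
      refine e2.trans (le_of_eq ?_)
      have e3 := sum_N_mul A B (A + B) (fun c hc r hr => Finset.add_mem_add hc hr) (fun _ => 1)
      simp only [mul_one] at e3
      rw [e3]
      simp
    simp only [Finset.sum_sub_distrib, Finset.sum_add_distrib, ← Finset.mul_sum,
      Finset.sum_const, nsmul_eq_mul, mul_one] at h2
    have h4 := mul_le_mul_of_nonneg_left h3 (by positivity : 0 ≤ (S.card : ℝ) / A.card)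
    unfold Lz
    nlinarith
  have hsum := Finset.sum_le_sum hgibbs
  rw [Finset.sum_sub_distrib, ← hLz, Finset.sum_add_distrib, Finset.sum_sub_distrib,
    ← Finset.sum_mul, ← Finset.sum_mul, ← Finset.sum_div, ← hcard] at hsum
  have e1 : ∑ t ∈ A.image f, ((A.filter fun a => f a = t).card : ℝ) * B.card *
      (Real.log A.card - Real.log (A.filter fun a => f a = t).card) =
      B.card * (A.card * Real.log A.card - ∑ t ∈ A.image f,
        ((A.filter fun a => f a = t).card : ℝ) *
          Real.log (A.filter fun a => f a = t).card) := by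
    rw [mul_sub, Finset.mul_sum, hcard, Finset.sum_mul, Finset.mul_sum, ← Finset.sum_sub_distrib,
      ← hcard]
    refine Finset.sum_congr rfl fun t _ => ?_
    ring
  rw [e1] at hsum
  have e2 : (A.card : ℝ) / A.card * (A.card * B.card) - A.card * B.card = 0 := by
    field_simp
    ring
  rw [e2, add_zero] at hsum
  have h5 : (Lz A B - ∑ t ∈ A.image f, Lz (A.filter fun a => f a = t) B) / B.card ≤
      A.card * Real.log A.card - ∑ t ∈ A.image f, ((A.filter fun a => f a = t).card : ℝ) *
          Real.log (A.filter fun a => f a = t).card := by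
    rw [div_le_iff₀ cB]
    linarith
  rw [sub_div] at h5
  linarith

/-- affine images -/
theorem g_affine (A B : Finset ℤ) (l m : ℤ) (hl : l ≠ 0) :
    g (A.image fun a => l * a) (B.image fun b => l * b + m) = g A B := by
  have hi1 : Function.Injective fun a : ℤ => l * a := fun a a' h => mul_left_cancel₀ hl h
  have hi2 : Function.Injective fun b : ℤ => l * b + m := fun a a' h =>
    mul_left_cancel₀ hl (add_right_cancel h)
  have hN : ∀ z : ℤ, N (A.image fun a => l * a) (B.image fun b => l * b + m) (l * z + m) =
      N A B z := by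
    intro z
    unfold N
    rw [Finset.sum_image fun a _ a' _ h => hi1 h]
    refine Finset.sum_congr rfl fun a _ => ?_
    have : l * z + m - l * a = l * (z - a) + m := by ring
    rw [this]
    have e : (l * (z - a) + m ∈ B.image fun b => l * b + m) ↔ z - a ∈ B := by
      rw [mem_image]
      constructor
      · rintro ⟨b, hb, hbe⟩
        rwa [hi2 hbe] at hb
      · intro h
        exact ⟨_, h, rfl⟩
    simp only [e]
  unfold g
  rw [Finset.card_image_of_injective _ hi1, Finset.card_image_of_injective _ hi2]
  congr 2
  unfold Lz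
  rw [Finset.sum_image fun a _ a' _ h => hi1 h]
  refine Finset.sum_congr rfl fun a _ => ?_
  rw [Finset.sum_image fun a _ a' _ h => hi2 h]
  refine Finset.sum_congr rfl fun b _ => ?_
  have : l * a + (l * b + m) = l * (a + b) + m := by ring
  rw [this, hN]

/-- dilates -/
theorem g_dil (A B : Finset ℤ) (l : ℤ) (hl : l ≠ 0) (hA : A.Nonempty) (hB : B.Nonempty)
    (x ε : ℝ) (hε : 0 ≤ ε)
    (h : ∀ B' : Finset ℤ, B'.Nonempty → x - ε * Real.log B'.card ≤ g A B') :
    x - ε * Real.log B.card ≤ g (A.image fun a => l * a) B := by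
  obtain ⟨κ, hκ, hg⟩ := exists_class (A.image fun a => l * a) B (hA.image _) hB
    (fun z => z % l) (fun z => z % l) (fun c hc r _ => by
      obtain ⟨a, _, rfl⟩ := mem_image.1 hc
      exact Int.mul_add_emod_self_left _ _ _)
  obtain ⟨b₀, hb₀, hb₀κ⟩ := mem_image.1 hκ
  set Bκ := B.filter (fun z => z % l = κ) with hBκ
  have hne : Bκ.Nonempty := ⟨b₀, mem_filter.2 ⟨hb₀, hb₀κ⟩⟩
  have e1 : Bκ = (Bκ.image fun b => b / l).image fun b => l * b + κ := by
    rw [Finset.image_image]
    have : Set.EqOn ((fun b => l * b + κ) ∘ fun b => b / l) id (Bκ : Set ℤ) := by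
      intro b hb
      have h1 := (mem_filter.1 (Finset.mem_coe.1 hb)).2
      have h2 := Int.mul_ediv_add_emod b l
      rw [h1] at h2
      exact h2
    rw [Finset.image_congr this, Finset.image_id]
  rw [e1, g_affine A _ l κ hl] at hg
  have h1 := h _ (hne.image fun b => b / l)
  have h2 : Real.log ((Bκ.image fun b => b / l).card) ≤ Real.log B.card := by
    apply Real.log_le_log
    · exact_mod_cast (hne.image _).card_pos
    · exact_mod_cast card_image_le.trans (Finset.card_le_card (Finset.filter_subset _ _))
  have h3 := mul_le_mul_of_nonneg_left h2 hε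
  linarith

/-- the entropy gain and the representation function -/
theorem sum_log_N (A B : Finset ℤ) (hA : A.Nonempty) (hB : B.Nonempty) :
    ∑ a ∈ A, ∑ b ∈ B, Real.log (N A B (a + b)) =
      A.card * B.card * (Real.log A.card - g A B) := by
  have cA : (0 : ℝ) < A.card := by exact_mod_cast hA.card_pos
  have cB : (0 : ℝ) < B.card := by exact_mod_cast hB.card_pos
  unfold g Lz
  field_simp
  ring

end Pool.Agent.Helper51.NP
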